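import Pool.Agent.H639.LU.Final2
import Pool.Agent.H639.LU.Final3
import Pool.Agent.H639.LU.K7
import Pool.Agent.H639.LU.K9

/-!
# Degree invariant solutions to Post's problem need unbounded non-uniformity

`W r X` is the set c.e. in `X` with index `r`: `n ∈ W_r^X` iff the program `r` halts on the input
`(n, σ)` for some finite initial segment `σ` of `X`; `J X` is the jump of `X`; `le Y X` is Turing
reducibility `Y ≤_T X` (Mathlib's `TuringReducible` of the characteristic functions); `Red c X Y`
says that the program `c` reduces `Y` to `X`: run on the inputs `(n, σ)`, `σ` a finite initial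
segment of `X`, it outputs `Y n` for at least one `σ` and never outputs another value. The last
part of the theorem says that `Y ≤_T X` holds if and only if some program reduces `Y` to `X`.

Lachlan (1975) proved that there is no `r` with `X <_T W_r^X <_T X'` for all `X` for which a
computable function transforms every pair `(i, j)` of programs witnessing `X ≡_T Y` into programs
witnessing `W_r^X ≡_T W_r^Y`. Here it is shown that it does not help to allow `k` candidates for
the program, for any fixed `k`, chosen from `(i, j)` in an arbitrary, not necessarily computable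
way.

* Part 1 (local form): if `W_r^X` is not computable in `X` for all `X` in a cone, then for each
  `k`, for all `X` in a cone and all `V ≥_T X`: if a set c.e. in `V` provides, for every pair
  `(i, j)`, at most `k` programs such that for all `Y ≡_T X` via `(i, j)` one of them reduces
  `W_r^Y` to `V`, then `X' ≤_T V`.
* Part 2 (dichotomy): an operator `W_r` with `X ≤_T W_r^X` which is invariant on a cone with `k`
  candidates either has `W_r^X ≤_T X` for cofinally many `X` or `X' ≤_T W_r^X` on a cone.
* Part 3: if `W_r` solves Post's problem on a cone, then for every `k` there is a single pair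
  `(i, j)` for which no `k` programs suffice, in any cone.

The proof iterates the passage to the boundary of `{X : n ∈ W_r^X}` in the set of branches of a
tree; the trees come from a Gale-Stewart game and the recursion theorem (a closed set with members
in cofinally many degrees contains the branches of a tree decoded by a fixed program). In a
sequence of `k + 1` such trees one can count, with `k` given numbers, how many of them are in the
jump of `X`; `k` candidates for this number give `X' ≤_T V` by the argument of the cardinality
theorem.

The tasks were formalised by helper6, helper171, helper179, helper186, helper193, helper194,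
helper219, helper232, helper333, helper454, helper463, helper639, helper690, helper693, helper755,
helper851, helper880 and helper926.
-/

namespace Pool.Agent.Results.MP_57825d_lc.BoundedNonuniformity

open Nat.Partrec (Code)
open Encodable
open Pool.Agent.H639.LU

theorem result :
    -- 1. the local form
    (∀ (r : Code) (z₀ : ℕ → Bool), (∀ X, le z₀ X → ¬ le (ch (W r X)) X) →
      ∀ k : ℕ, ∃ z₁ : ℕ → Bool, ∀ X, le z₁ X → ∀ V : ℕ → Bool, le X V → ∀ e : Code,
        (∀ i j : Code, {l : Code | W e V (encode (i, j, l))}.encard ≤ k) →
        (∀ (i j : Code) (Y : ℕ → Bool), Red i X Y → Red j Y X →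
          ∃ l : Code, W e V (encode (i, j, l)) ∧ Red l V (ch (W r Y))) →
        le (ch (J X)) V) ∧
    -- 2. the dichotomy
    (∀ (r : Code) (z₂ : ℕ → Bool) (k : ℕ) (u : Code → Code → Finset Code),
      (∀ i j, (u i j).card ≤ k) →
      (∀ X, le z₂ X → le X (ch (W r X)) ∧ ∀ (i j : Code) (Y : ℕ → Bool), Red i X Y → Red j Y X →
        ∃ l ∈ u i j, Red l (ch (W r X)) (ch (W r Y))) →
      (∀ z, ∃ X, le z X ∧ le (ch (W r X)) X) ∨
        ∃ z, ∀ X, le z X → le (ch (J X)) (ch (W r X))) ∧
    -- 3. solutions to Post's problem
    (∀ (r : Code) (z₀ : ℕ → Bool),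
      (∀ X, le z₀ X → ¬ le (ch (W r X)) X ∧ le X (ch (W r X)) ∧ ¬ le (ch (J X)) (ch (W r X))) →
      ∀ k : ℕ, ∃ i j : Code, ∀ L : Finset Code, L.card ≤ k → ∀ z : ℕ → Bool,
        ∃ X Y : ℕ → Bool, le z X ∧ Red i X Y ∧ Red j Y X ∧
          ∀ l ∈ L, ¬ Red l (ch (W r X)) (ch (W r Y))) ∧
    -- 4. `Red` and Turing reducibility
    (∀ X Y : ℕ → Bool, le Y X ↔ ∃ c : Code, Red c X Y) :=
  ⟨main2_of allP K7 K9, dich_of (main2_of allP K7 K9), main, K3 K2⟩

/-- The special case of all oracles: no degree invariant solution to Post's problem is boundedly
uniform. -/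
theorem no_boundedly_uniform (r : Code)
    (hr : ∀ X, ¬ le (ch (W r X)) X ∧ le X (ch (W r X)) ∧ ¬ le (ch (J X)) (ch (W r X))) :
    ¬ ∃ (k : ℕ) (u : Code → Code → Finset Code), (∀ i j, (u i j).card ≤ k) ∧
      ∀ (i j : Code) (X Y : ℕ → Bool), Red i X Y → Red j Y X →
        ∃ l ∈ u i j, Red l (ch (W r X)) (ch (W r Y)) := by
  rintro ⟨k, u, hu, h⟩
  obtain ⟨i, j, hij⟩ := result.2.2.1 r (fun _ => false) (fun X _ => hr X) k
  obtain ⟨X, Y, -, h1, h2, h3⟩ := hij (u i j) (hu i j) (fun _ => false)
  obtain ⟨l, hl, hl'⟩ := h i j X Y h1 h2
  exact h3 l hl hl'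

end Pool.Agent.Results.MP_57825d_lc.BoundedNonuniformity
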