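import Pool.Agent.H548R2.Post.Main

set_option autoImplicit false

/-!
# Solutions to Post's problem that are invariant under primitive recursive translations

`TLe` (Turing reducibility of sets, given by their characteristic sequences, from Mathlib's
`TuringReducible`) is defined in `Pool/Agent/Helper227/Defs.lean`; `WE X e` (the `e`-th set
computably enumerable relative to `X`) and `jump X` (the Turing jump of `X`) are defined in
`Pool/Agent/Helper227/RD/Jump.lean`; `chr S` (the characteristic sequence of `S`) is defined in
`Pool/Agent/H548R2/Post/Main.lean`.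
-/

namespace Pool.Agent.Results.MP_57825d_lc.PrimrecInvariant

open Pool.Agent.Helper227 Pool.Agent.H548R2.Post

/-- For every uniformly computable sequence `C 0, C 1, ...` of sets there is one index `e` such
that `X <_T W_e^X <_T X'` and `(W_e^X)' ≤_T X'` for all `X`, and `W_e^X ≡_T W_e^Y` for all `X`, `Y`
such that `X △ Y` is primitive recursive or is one of the sets `C i`. -/
theorem result (C : ℕ → ℕ → Bool) (hC : Computable₂ C) : ∃ e : ℕ,
    (∀ X : ℕ → Bool, TLe X (chr (WE X e)) ∧ ¬ TLe (chr (WE X e)) X ∧
      TLe (chr (WE X e)) (jump X) ∧ ¬ TLe (jump X) (chr (WE X e)) ∧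
      TLe (jump (chr (WE X e))) (jump X)) ∧
    ∀ X Y : ℕ → Bool,
      ((∃ i, ∀ n, xor (X n) (Y n) = C i n) ∨ Primrec (fun n => xor (X n) (Y n))) →
      TLe (chr (WE X e)) (chr (WE Y e)) ∧ TLe (chr (WE Y e)) (chr (WE X e)) :=
  main_both C hC

end Pool.Agent.Results.MP_57825d_lc.PrimrecInvariant
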